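import Pool.Agent.helper64.D2.SpecS

/-!
# Module dc:TTT (MP_5823cb_al): the shift is a conjugation in `G2`
-/

set_option autoImplicit false

open Filter Topology

namespace Pool.Agent.helper64.D2

/-- The shift function. -/
noncomputable def TTT_S (u : ℝ) : ℝ := u + Real.smoothTransition (2 * u - 5 / 2)

theorem TTT_S_low (u : ℝ) (hu : u ≤ 5 / 4) : TTT_S u = u := by
  unfold TTT_S
  rw [Real.smoothTransition.zero_of_nonpos (by linarith), add_zero]

theorem TTT_S_high (u : ℝ) (hu : 7 / 4 ≤ u) : TTT_S u = u + 1 := by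
  unfold TTT_S
  rw [Real.smoothTransition.one_of_one_le (by linarith)]

theorem TTT_S_ge (u : ℝ) : u ≤ TTT_S u := by
  unfold TTT_S
  linarith [Real.smoothTransition.nonneg (2 * u - 5 / 2)]

theorem TTT_S_le (u : ℝ) : TTT_S u ≤ u + 1 := by
  unfold TTT_S
  linarith [Real.smoothTransition.le_one (2 * u - 5 / 2)]

theorem TTT_S_strictMono : StrictMono TTT_S := by
  intro x y hxy
  unfold TTT_S
  have h := Real.smoothTransition.monotone (show 2 * x - 5 / 2 ≤ 2 * y - 5 / 2 by linarith)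
  linarith

theorem TTT_S_contDiff : ContDiff ℝ 2 TTT_S := by
  unfold TTT_S
  have h1 : ContDiff ℝ 2 Real.smoothTransition := Real.smoothTransition.contDiff (n := 2)
  have h2 : ContDiff ℝ 2 (fun u : ℝ => 2 * u - 5 / 2) := by fun_prop
  exact contDiff_id.add (h1.comp h2)

theorem TTT_S_surj : Function.Surjective TTT_S := by
  apply TTT_S_contDiff.continuous.surjective
  · exact tendsto_atTop_mono TTT_S_ge tendsto_id
  · have h : Tendsto (fun u : ℝ => u + 1) atBot atBot := tendsto_atBot_add_const_right _ _ tendsto_id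
    exact tendsto_atBot_mono TTT_S_le h

/-- The shift function as an order isomorphism. -/
noncomputable def TTT_iso : ℝ ≃o ℝ := TTT_S_strictMono.orderIsoOfSurjective TTT_S TTT_S_surj

theorem TTT_iso_apply (u : ℝ) : TTT_iso u = TTT_S u := rfl

theorem TTT_symm_apply (u : ℝ) : TTT_iso.symm (TTT_S u) = u := TTT_iso.symm_apply_apply u

theorem TTT_apply_symm (u : ℝ) : TTT_S (TTT_iso.symm u) = u := TTT_iso.apply_symm_apply u

theorem TTT_symm_contDiff : ContDiff ℝ 2 (fun u : ℝ => TTT_iso.symm u) := by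
  have hd : Differentiable ℝ TTT_S := TTT_S_contDiff.differentiable (by norm_num)
  have h := TTT_iso.toHomeomorph.contDiff_symm_deriv (n := 2) (f' := deriv TTT_S) ?_ ?_ TTT_S_contDiff
  · exact h
  · intro x hx
    have hs : Differentiable ℝ (fun u : ℝ => Real.smoothTransition (2 * u - 5 / 2)) := by
      have h1 : ContDiff ℝ 2 Real.smoothTransition := Real.smoothTransition.contDiff (n := 2)
      have h2 : ContDiff ℝ 2 (fun u : ℝ => 2 * u - 5 / 2) := by fun_prop
      exact (h1.comp h2).differentiable (by norm_num)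
    have hm : Monotone (fun u : ℝ => Real.smoothTransition (2 * u - 5 / 2)) := by
      intro a b hab
      exact Real.smoothTransition.monotone (by linarith)
    have h3 : deriv TTT_S x = 1 + deriv (fun u : ℝ => Real.smoothTransition (2 * u - 5 / 2)) x := by
      have := ((hasDerivAt_id x).add (hs x).hasDerivAt).deriv
      exact this
    have h4 := hm.deriv_nonneg (x := x)
    linarith
  · intro x
    exact (hd x).hasDerivAt

theorem TTT_symm_low (u : ℝ) (hu : u ≤ 5 / 4) : TTT_iso.symm u = u := by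
  have h := TTT_symm_apply u
  rwa [TTT_S_low u hu] at h

theorem TTT_symm_high (u : ℝ) (hu : 11 / 4 ≤ u) : TTT_iso.symm u = u - 1 := by
  have h := TTT_symm_apply (u - 1)
  rw [TTT_S_high (u - 1) (by linarith)] at h
  rwa [sub_add_cancel] at h

/-- Limits for a function which is a translation for large `u`. -/
theorem TTT_lim (h : ℝ → ℝ) (a b : ℝ) (H : ∀ u, a ≤ u → h u = u + b) :
    Tendsto (fun u : ℝ => u ^ 3 * d2 h u ^ 2) atTop (𝓝 0) ∧ Tendsto (fun u : ℝ => u * (deriv h u - 1) ^ 2) atTop (𝓝 0) ∧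
    Tendsto (fun u : ℝ => (h u - u) ^ 2 / u) atTop (𝓝 0) := by
  have h1 : ∀ u, a < u → deriv h u = 1 := by
    intro u hu
    have he : h =ᶠ[𝓝 u] fun v => v + b := by
      filter_upwards [lt_mem_nhds hu] with v hv
      exact H v hv.le
    rw [he.deriv_eq]
    simp
  have h2 : ∀ u, a < u → d2 h u = 0 := by
    intro u hu
    have he : deriv h =ᶠ[𝓝 u] fun _ => 1 := by
      filter_upwards [lt_mem_nhds hu] with v hv
      exact h1 v hv
    unfold d2
    rw [he.deriv_eq]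
    simp
  refine ⟨?_, ?_, ?_⟩
  · apply tendsto_const_nhds.congr'
    filter_upwards [eventually_gt_atTop a] with u hu
    rw [h2 u hu]; ring
  · apply tendsto_const_nhds.congr'
    filter_upwards [eventually_gt_atTop a] with u hu
    rw [h1 u hu]; ring
  · have h3 : Tendsto (fun u : ℝ => b ^ 2 / u) atTop (𝓝 0) := tendsto_const_nhds.div_atTop tendsto_id
    apply h3.congr'
    filter_upwards [eventually_gt_atTop a] with u hu
    rw [H u hu.le]; ring

/-- The lift defined by a function `h` on `[1,∞)`. -/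
noncomputable def TTT_lift (h : ℝ → ℝ) (hm : Monotone h) (h1 : ∀ u, 1 ≤ u → 1 ≤ h u) : CircleDeg1Lift where
  toFun x := (⌊x⌋ : ℝ) + kk (h (uu (Int.fract x)))
  monotone' := by
    intro x y hxy
    have hx : Int.fract x ∈ Set.Ico (0 : ℝ) 1 := ⟨Int.fract_nonneg x, Int.fract_lt_one x⟩
    have hy : Int.fract y ∈ Set.Ico (0 : ℝ) 1 := ⟨Int.fract_nonneg y, Int.fract_lt_one y⟩
    rcases (Int.floor_mono hxy).eq_or_lt with h2 | h2
    · have h3 : Int.fract x ≤ Int.fract y := by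
        unfold Int.fract; rw [h2]; linarith
      show (⌊x⌋ : ℝ) + kk (h (uu (Int.fract x))) ≤ (⌊y⌋ : ℝ) + kk (h (uu (Int.fract y)))
      rw [h2]
      have h4 := uu_mono _ _ h3 hy.2
      have h5 := hm h4
      have h6 := kk_mono _ _ (h1 _ (uu_ge _ hx)) h5
      linarith
    · show (⌊x⌋ : ℝ) + kk (h (uu (Int.fract x))) ≤ (⌊y⌋ : ℝ) + kk (h (uu (Int.fract y)))
      have h3 := kk_mem _ (h1 _ (uu_ge _ hx))
      have h4 := kk_mem _ (h1 _ (uu_ge _ hy))
      have h5 : (⌊x⌋ : ℝ) + 1 ≤ (⌊y⌋ : ℝ) := by exact_mod_cast h2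
      linarith [h3.2, h4.1]
  map_add_one' := by
    intro x
    show (⌊x + 1⌋ : ℝ) + kk (h (uu (Int.fract (x + 1)))) = (⌊x⌋ : ℝ) + kk (h (uu (Int.fract x))) + 1
    rw [Int.floor_add_one, Int.fract_add_one]
    push_cast
    ring

theorem TTT_lift_apply (h : ℝ → ℝ) (hm : Monotone h) (h1 : ∀ u, 1 ≤ u → 1 ≤ h u) (x : ℝ) :
    TTT_lift h hm h1 x = (⌊x⌋ : ℝ) + kk (h (uu (Int.fract x))) := rfl

/-- Floor and fractional part of a point given in the coordinate `u`. -/
theorem TTT_fl (n : ℤ) (u : ℝ) (hu : 1 ≤ u) :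
    ⌊(n : ℝ) + kk u⌋ = n ∧ uu (Int.fract ((n : ℝ) + kk u)) = u := by
  have h2 := kk_mem u hu
  have h3 : ⌊(n : ℝ) + kk u⌋ = n := by
    rw [Int.floor_eq_iff]
    exact ⟨by linarith [h2.1], by linarith [h2.2]⟩
  refine ⟨h3, ?_⟩
  unfold Int.fract
  rw [h3, add_sub_cancel_left, uu_kk u hu]

theorem TTT_slot (c : ℕ → DD) (hc : ∀ k < 2, c k = 1) (u : ℝ) (hu : 1 ≤ u) :
    slot (sh c) (TTT_S u) = TTT_S (slot c u) := by
  rcases lt_or_ge u 2 with h2 | h2
  · have hf : ⌊u⌋₊ = 1 := by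
      rw [Nat.floor_eq_iff (by linarith)]
      constructor
      · push_cast; linarith
      · push_cast; linarith
    have h3 : slot c u = u := by
      unfold slot
      rw [hf, hc 1 (by norm_num), ev_one]
      ring
    rw [h3]
    have h4 : TTT_S u < 3 := by linarith [TTT_S_le u]
    have h5 : 0 ≤ TTT_S u := by linarith [TTT_S_ge u]
    have h6 : ⌊TTT_S u⌋₊ < 3 := (Nat.floor_lt h5).2 (by exact_mod_cast h4)
    have h7 : sh c ⌊TTT_S u⌋₊ = 1 := by
      unfold sh
      apply hc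
      omega
    unfold slot
    rw [h7, ev_one]
    ring
  · rw [TTT_S_high u (by linarith)]
    have hf : ⌊u + 1⌋₊ = ⌊u⌋₊ + 1 := Nat.floor_add_one (by linarith)
    have h3 : slot (sh c) (u + 1) = slot c u + 1 := by
      unfold slot
      rw [hf]
      have h4 : sh c (⌊u⌋₊ + 1) = c ⌊u⌋₊ := by
        unfold sh
        rw [Nat.add_sub_cancel]
      rw [h4]
      push_cast
      rw [show u + 1 - ((⌊u⌋₊ : ℝ) + 1) = u - (⌊u⌋₊ : ℝ) by ring]
      ring
    rw [h3]
    have h5 : (2 : ℝ) ≤ slot c u := by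
      have h6 := (slot_floor c u (by linarith)).1
      have h7 : (2 : ℕ) ≤ ⌊u⌋₊ := Nat.le_floor (by exact_mod_cast h2)
      have h8 : (2 : ℝ) ≤ (⌊u⌋₊ : ℝ) := by exact_mod_cast h7
      linarith
    rw [TTT_S_high _ (by linarith)]

theorem TTT (hSM2 : SM2_stmt) : TTT_stmt := by
  have hSm : Monotone TTT_S := TTT_S_strictMono.monotone
  have hS1 : ∀ u, 1 ≤ u → 1 ≤ TTT_S u := fun u hu => hu.trans (TTT_S_ge u)
  have hRm : Monotone (fun u : ℝ => TTT_iso.symm u) := TTT_iso.symm.monotone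
  have hR1 : ∀ u, 1 ≤ u → 1 ≤ (fun u : ℝ => TTT_iso.symm u) u := by
    intro u hu
    have h := hRm hu
    simp only at h ⊢
    rw [TTT_symm_low 1 (by norm_num)] at h
    exact h
  have hx : ∀ x : ℝ, 1 ≤ uu (Int.fract x) := fun x => uu_ge _ ⟨Int.fract_nonneg x, Int.fract_lt_one x⟩
  let T : CircleDeg1Liftˣ :=
    { val := TTT_lift TTT_S hSm hS1
      inv := TTT_lift (fun u => TTT_iso.symm u) hRm hR1
      val_inv := by
        ext x
        rw [CircleDeg1Lift.mul_apply, TTT_lift_apply _ _ _ x, TTT_lift_apply, (TTT_fl _ _ (hR1 _ (hx x))).1,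
          (TTT_fl _ _ (hR1 _ (hx x))).2, TTT_apply_symm, kk_uu _ ⟨Int.fract_nonneg x, Int.fract_lt_one x⟩,
          Int.floor_add_fract]
        rfl
      inv_val := by
        ext x
        rw [CircleDeg1Lift.mul_apply, TTT_lift_apply _ _ _ x, TTT_lift_apply, (TTT_fl _ _ (hS1 _ (hx x))).1,
          (TTT_fl _ _ (hS1 _ (hx x))).2, TTT_symm_apply, kk_uu _ ⟨Int.fract_nonneg x, Int.fract_lt_one x⟩,
          Int.floor_add_fract]
        rfl }
  have hT1 : ContDiff ℝ 2 ⇑(T : CircleDeg1Lift) := by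
    obtain ⟨l1, l2, l3⟩ := TTT_lim TTT_S (7 / 4) 1 TTT_S_high
    exact hSM2 TTT_S TTT_S_contDiff (fun u hu => TTT_S_low u (by linarith)) hS1 l1 l2 l3
  have hT2 : ContDiff ℝ 2 ⇑((T⁻¹ : CircleDeg1Liftˣ) : CircleDeg1Lift) := by
    obtain ⟨l1, l2, l3⟩ := TTT_lim (fun u : ℝ => TTT_iso.symm u) (11 / 4) (-1)
      (fun u hu => by rw [TTT_symm_high u hu]; ring)
    exact hSM2 (fun u : ℝ => TTT_iso.symm u) TTT_symm_contDiff (fun u hu => TTT_symm_low u (by linarith)) hR1 l1 l2 l3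
  refine ⟨T, ⟨hT1, hT2⟩, ?_⟩
  intro c hc
  rw [mul_inv_eq_iff_eq_mul]
  ext x
  have hv : ∀ y : ℝ, (T : CircleDeg1Lift) y = (⌊y⌋ : ℝ) + kk (TTT_S (uu (Int.fract y))) := fun y => rfl
  show (T : CircleDeg1Lift) (thf c x) = thf (sh c) ((T : CircleDeg1Lift) x)
  rw [hv x]
  have e1 : thf c x = (⌊x⌋ : ℝ) + kk (slot c (uu (Int.fract x))) := rfl
  rw [e1, hv, (TTT_fl _ _ (slot_ge_one c _ (hx x))).1, (TTT_fl _ _ (slot_ge_one c _ (hx x))).2]
  have e2 : ∀ y : ℝ, thf (sh c) y = (⌊y⌋ : ℝ) + kk (slot (sh c) (uu (Int.fract y))) := fun y => rfl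
  rw [e2, (TTT_fl _ _ (hS1 _ (hx x))).1, (TTT_fl _ _ (hS1 _ (hx x))).2, TTT_slot c hc _ (hx x)]

end Pool.Agent.helper64.D2
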